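import Pool.Agent.VEB.MAIN

/-!
# Vojta's height inequality for surfaces fibred over an elliptic curve

`S` is a compact complex surface with a holomorphic map `π` to the elliptic curve `E = ℂ / Λ` and
`D ⊂ S` is a curve (possibly empty). Assume that some `m`-canonical forms on `S \ D` separate the
points of `S \ D` in different fibres of `π`, and that `S \ D` carries a metric which dominates a
metric of `S` and whose curvature along the local holomorphic sections of `π` is negative for large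
velocities (see `IsNeg`). Then there are only finitely many curves `E'` in `S \ D` which are étale
over `E`, and a constant `A`, such that for every compact connected Riemann surface `B` and every
holomorphic map `f : B → S` with `π ∘ f` not constant and `f(B)` not contained in `D` or in one of
the curves `E'`, the degree of `π ∘ f`, and, if the forms generate a line bundle `L` (`m (K + D)`),
also the degree of `f^* L`, are at most `A (∑ (e p - 1) + #f⁻¹ D)`, where `e p` is the ramification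
index of `π ∘ f` at `p`. (By the Riemann-Hurwitz formula `∑ (e p - 1) = 2 g(B) - 2`.)
-/

open scoped Manifold Topology
open Filter Metric Set

namespace Pool.Agent.Results.MP_4dacf8_ag.EllipticFibrations

open Pool.Agent.ELL Pool.Agent.EPO Pool.Agent.VEB

theorem result.{u} {S : Type*} [MetricSpace S] [CompactSpace S] [ChartedSpace (ℂ × ℂ) S]
    [IsManifold 𝓘(ℂ, ℂ × ℂ) 1 S] {Λ : Submodule ℤ ℂ} [DiscreteTopology Λ] [IsZLattice ℝ Λ]
    {π : S → ℂ ⧸ Λ} {D : Set S} {m : ℕ} {ι : Type} [Fintype ι] {σ : ι → PluriForm S m D}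
    (hπ : HolTo Λ π) (hD : IsDivisor D) (hs : NoSecIn π D) (hσ : Separates π D σ)
    (hm : 0 < m) {H : (p : S) → TangentSpace 𝓘(ℂ, ℂ × ℂ) p → ℝ} {c C : ℝ}
    (hH : IsNeg π D H c C) :
    (Sec π D).Finite ∧ (∃ n : ℕ, 0 < n ∧ ∀ E ∈ Sec π D, ∀ ω ∈ Λ, ∀ ζ, E (ζ + n * ω) = E ζ) ∧
    ∃ A : ℝ, ∀ (B : Type u) [TopologicalSpace B] [T2Space B] [CompactSpace B]
      [ConnectedSpace B] [ChartedSpace ℂ B] [IsManifold 𝓘(ℂ, ℂ) 1 B] (f : B → S),
      MDifferentiable 𝓘(ℂ, ℂ) 𝓘(ℂ, ℂ × ℂ) f → (∃ p q, π (f p) ≠ π (f q)) → (∃ p, f p ∉ D) →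
      ∃ (e : B → ℕ) (P : Finset B), (∀ p, IsRam Λ (fun q => π (f q)) p (e p)) ∧
        (∀ p, p ∈ P ↔ e p ≠ 1 ∨ f p ∈ D) ∧
        ((∃ E ∈ Sec π D, ∀ p, f p ∈ range E) ∨
          ((∀ b : ℂ ⧸ Λ, ∃ Q : Finset B, (∀ p, p ∈ Q ↔ π (f p) = b) ∧ ∑ p ∈ Q, (e p : ℝ) ≤
            A * (∑ p ∈ P, ((e p : ℝ) - 1) + {p : B | f p ∈ D}.ncard)) ∧
          ((∀ p : S, ∃ U W, GenAt σ p U W) → ∀ (i : ι) (k : B → ℕ),
            (∀ p, IsVan σ f i p (k p)) → ∃ Q : Finset B, (∀ p, p ∈ Q ↔ k p ≠ 0) ∧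
              ∑ p ∈ Q, (k p : ℝ) ≤
                A * (∑ p ∈ P, ((e p : ℝ) - 1) + {p : B | f p ∈ D}.ncard)))) :=
  MAIN.{u} hπ hD hs hσ hm hH

end Pool.Agent.Results.MP_4dacf8_ag.EllipticFibrations
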