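import Pool.Agent.EPO.MAIN
import Pool.Agent.EPO.CNN

/-!
# Vojta's height inequality for `E × ℙ¹` and every reduced curve `D` with `K + D` big

`E = ℂ / Λ` is an elliptic curve and `D ⊂ E × ℙ¹` a reduced curve of degree `n ≥ 3` over `E`,
without fibres `{pt} × ℙ¹` and not a union of curves `E × {pt}`; equivalently (for `D` without
fibres) `K + D` is big. There is a constant `A` such that for every compact connected Riemann surface `C` and every
holomorphic map `(z, x) : C → E × ℙ¹` with `z` not constant and image not in `D`,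
`deg (z, x)^* D ≤ A (∑ (e p - 1) + #(z, x)⁻¹ D)`,
where `e p` is the ramification index of `z` at `p`. (By the Riemann-Hurwitz formula
`∑ (e p - 1) = 2 g(C) - 2`.)
-/

open scoped Manifold Topology LinearAlgebra.Projectivization

namespace Pool.Agent.Results.MP_4dacf8_ag.EllipticTimesLine

open Pool.Agent.EPO

theorem result.{u} (Λ : Submodule ℤ ℂ) [DiscreteTopology Λ] [IsZLattice ℝ Λ] {n : ℕ}
    (hn : 3 ≤ n) (f : ℂ → Fin (n + 1) → ℂ) (hf : IsCurve Λ f) :
    ∃ A : ℝ, ∀ (C : Type u) [TopologicalSpace C] [T2Space C] [CompactSpace C] [ConnectedSpace C]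
      [ChartedSpace ℂ C] [IsManifold 𝓘(ℂ, ℂ) 1 C] (z : C → ℂ ⧸ Λ) (x : C → ℙ ℂ (ℂ × ℂ)),
      HolMap Λ z x → (∃ p q, z p ≠ z q) → (∃ p, ¬ OnCurve Λ f (z p) (x p)) →
      ∃ e k : C → ℕ, (∀ p, Local Λ f z x p (e p) (k p)) ∧
        ∃ P : Finset C, (∀ p, p ∉ P ↔ e p = 1 ∧ k p = 0) ∧
          ∑ p ∈ P, (k p : ℝ) ≤
            A * (∑ p ∈ P, ((e p : ℝ) - 1) + (P.filter fun p => 0 < k p).card) := by
  obtain ⟨A, hA⟩ := MAIN.{u} Λ hn f hf
  refine ⟨A, ?_⟩
  intro C _ _ _ _ _ _ z x hm hz hx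
  obtain ⟨e, k, H⟩ := CNN hf hm hz hx
  exact ⟨e, k, H, hA C z x e k H⟩

end Pool.Agent.Results.MP_4dacf8_ag.EllipticTimesLine
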