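import Pool.Agent.Helper11.TruncXCor

/-!
# Truncation level one for many reduced divisors

`Y` is any projective variety over `k` (possibly singular) and `D` consists of reduced members of a
linear system on `Y`, at most `n` of which pass through any point outside a closed subset `W` of
`Y`. The variety `Y` may be the total space of a family over a curve `B`, the points may be the
sections of this family over the covers of `B`, and `W` may be a union of fibres: then all
hypotheses on the position of the divisors are hypotheses on the generic fibre.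
-/

set_option linter.unusedSectionVars false

namespace Pool.Agent.Results.MP_4dacf8_ag.TruncationOneReducedDivisors

open Pool.Agent.Helper11 MvPolynomial

universe u w

section defs

variable {k : Type*} [Field k] {N : ℕ}

/-- the affine cone, without its vertex, over the projective variety with homogeneous ideal `I` -/
def Cone (I : Ideal (MvPolynomial (Fin (N + 1)) k)) : Set (Fin (N + 1) → k) :=
  {x | x ≠ 0 ∧ ∀ G ∈ I, eval x G = 0}

/-- the gradient of the polynomial `G` at the point `x` -/
noncomputable def gradient (G : MvPolynomial (Fin (N + 1)) k) (x : Fin (N + 1) → k) :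
    Fin (N + 1) → k := fun i => eval x (pderiv i G)

/-- the span of the gradients at `x` of the elements of `I` -/
noncomputable def gradSpan (I : Ideal (MvPolynomial (Fin (N + 1)) k)) (x : Fin (N + 1) → k) :
    Submodule k (Fin (N + 1) → k) :=
  Submodule.span k {g | ∃ G ∈ I, g = gradient G x}

/-- `x` is a smooth point of the variety with ideal `I`: the rank of the Jacobian matrix at `x` is
the codimension -/
def IsSmoothPt (I : Ideal (MvPolynomial (Fin (N + 1)) k)) (x : Fin (N + 1) → k) : Prop :=
  (Module.finrank k (gradSpan I x) : Cardinal) +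
    Algebra.trdeg k (MvPolynomial (Fin (N + 1)) k ⧸ I) = ((N + 1 : ℕ) : Cardinal)

/-- `{G = 0}` is a reduced divisor of the variety `Y` with ideal `I`, no component of which is
contained in the singular locus of `Y`: each of its irreducible components (these correspond to the
minimal primes of `I + (G)`) contains a smooth point of `Y` which is a smooth point of the
divisor. -/
def IsReducedDivisor (I : Ideal (MvPolynomial (Fin (N + 1)) k))
    (G : MvPolynomial (Fin (N + 1)) k) : Prop :=
  ∀ 𝔮 ∈ (I ⊔ Ideal.span {G}).minimalPrimes, ∃ x ∈ Cone 𝔮,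
    IsSmoothPt I x ∧ gradient G x ∉ gradSpan I x

open Classical in
/-- `I` is the ideal of a projective variety `Y` in `ℙ ^ N`, `Γ` is a finite set of forms of degree
`e ≥ 1` which define reduced divisors of `Y`, and at most `n` of these divisors pass through any
point of `Y` which is not in the closed subset `W` defined by the forms `J j` of degree `b`. -/
structure IsArrangement (I : Ideal (MvPolynomial (Fin (N + 1)) k)) (e n b : ℕ) {l : ℕ}
    (J : Fin l → MvPolynomial (Fin (N + 1)) k)
    (Γ : Finset (MvPolynomial (Fin (N + 1)) k)) : Prop where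
  prime : I.IsPrime
  homogeneous : ∀ G ∈ I, ∀ d, homogeneousComponent d G ∈ I
  degree : 1 ≤ e ∧ ∀ G ∈ Γ, G.IsHomogeneous e
  degree_bad : ∀ j, (J j).IsHomogeneous b
  reduced : ∀ G ∈ Γ, IsReducedDivisor I G
  general_position : ∀ x ∈ Cone I, (∃ j, eval x (J j) ≠ 0) →
    (Γ.filter fun G => eval x G = 0).card ≤ n

/-- the total order of contact of the map `f` with the closed subset `W` defined by the forms `J j`
of degree `b`: the sum over all places of the minimal order of the functions `J j`, for homogeneous
coordinates of `f` without common zero at the place -/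
noncomputable def contact (k : Type*) {L : Type*} [Field k] [Field L] [Algebra k L] {N l : ℕ}
    (b : ℕ) (J : Fin l → MvPolynomial (Fin (N + 1)) k) (f : Fin (N + 1) → L) : ℤ :=
  ∑ᶠ v : Place k L, (v.minOrd (fun j => aeval f (J j)) - b * v.minOrd f)

end defs

/-- For every arrangement of `r` divisors on a projective variety `Y`, whose equations span a space
of dimension at most `m + 1`, and for every integer `K ≥ 1`, there are a proper closed subset
`{Z = 0}` of `Y` and a constant `C` such that every nonconstant map `f` from a smooth projective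
curve of genus `g` (with function field `L`) to `Y`, whose image is in none of the divisors and
neither in `W` nor in `{Z = 0}`, satisfies
`∑ (e h - N1_G) ≤ (r / K + n (K m) ^ m) (2 e h + 2 g - 2) + C N_W`.
Here `h` is the degree of the pull-back of `O(1)`, `N1_G` is the number of points of the curve
which `f` maps to the divisor `{G = 0}` (without multiplicities), and `N_W` is the total order of
contact of `f` with `W`. -/
theorem result (k : Type u) [Field k] [IsAlgClosed k] [CharZero k] (N m n e b l K : ℕ)
    (hK : 1 ≤ K) (I : Ideal (MvPolynomial (Fin (N + 1)) k))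
    (J : Fin l → MvPolynomial (Fin (N + 1)) k) (Γ : Finset (MvPolynomial (Fin (N + 1)) k))
    (A : IsArrangement I e n b J Γ)
    (hm : Module.finrank k (Submodule.span k (Γ : Set (MvPolynomial (Fin (N + 1)) k))) ≤ m + 1) :
    ∃ (d : ℕ) (Z : MvPolynomial (Fin (N + 1)) k) (C₀ : ℕ), Z.IsHomogeneous d ∧ Z ∉ I ∧
      ∀ (L : Type w) [Field L] [Algebra k L] [FunField k L] (f : Fin (N + 1) → L),
        (∀ G ∈ I, aeval f G = 0) → ¬ IsConstPt k f → (∀ G ∈ Γ, aeval f G ≠ 0) →
        (∃ j, aeval f (J j) ≠ 0) → aeval f Z ≠ 0 →
        ∑ G ∈ Γ, ((e * htP k f : ℝ) -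
          ({v : Place k L | e * v.minOrd f < v.ord (aeval f G)}.ncard : ℝ)) ≤
          (Γ.card / K + n * ((K * m : ℕ) : ℝ) ^ m) * (2 * (e * htP k f) + chi k L) +
            C₀ * contact k b J f := by
  classical
  have hred : ∀ G ∈ Γ, RedDiv I (Fintype.card (Fin (N + 1)) - tdeg I) G := by
    intro G hG 𝔮 h𝔮
    obtain ⟨x, hx, hs, hg⟩ := A.reduced G hG 𝔮 h𝔮
    refine ⟨x, hx.2, hx.1, ?_, hg⟩
    have h1 : (Module.finrank k (gradSpan I x) : Cardinal) +
      Algebra.trdeg k (MvPolynomial (Fin (N + 1)) k ⧸ I) = ((N + 1 : ℕ) : Cardinal) := hs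
    rw [trdeg_eq_tdeg] at h1
    have h2 : Module.finrank k (gradSpan I x) + tdeg I = N + 1 := by exact_mod_cast h1
    rw [Fintype.card_fin]
    have h3 : Module.finrank k (conormal I x) = Module.finrank k (gradSpan I x) := rfl
    omega
  obtain ⟨d, Z, C₀, hZd, hZI, hmain⟩ := trunc_forms_x.{u, w} (n := n) (b := b) (J := J) hK
    A.prime (fun G hG d => A.homogeneous G hG d) A.degree.1 A.degree.2 A.degree_bad hred
    (fun x hx hx0 hxJ => by
      refine le_trans (le_of_eq ?_) (A.general_position x ⟨hx0, hx⟩ hxJ)
      congr) hm
  refine ⟨d, Z, C₀, hZd, hZI, fun L _ _ _ f hf hfc hfΓ hfJ hfZ => ?_⟩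
  have h1 := hmain L f hf hfc hfΓ hfJ hfZ
  unfold contact
  rw [contact_eq]
  push_cast at h1 ⊢
  exact h1

end Pool.Agent.Results.MP_4dacf8_ag.TruncationOneReducedDivisors
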