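import Pool.Agent.VG.Main

/-!
# Vojta's height inequality for very general pairs over function fields

`F` is the function field of a curve over `k`. The forms `G₀ a` of degree `d a` over `F` are
arbitrary; `k₀` is a subfield of `k` over which they are defined, in the sense that their
coefficients are algebraic over `k₀(s)`, for some nonconstant `s` in `F`. The forms `P a` over `k`
are generic over `k₀`. The equations `G a = G₀ a + P a` define a complete intersection `X` of
dimension `n` in `ℙ ^ N` over `F` (for `a = Sum.inl i`) and the components of a divisor `D` of `X`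
(for `a = Sum.inr j`). Then the height inequality holds for all algebraic points of `X` outside
`D`.
-/

namespace Pool.Agent.Results.MP_4dacf8_ag.VeryGeneralPairs

open Pool.Agent.Helper11 Pool.Agent.VG MvPolynomial

universe u₀ u w

/-- There is a constant `C` such that for all finite extensions `L` of `F` and all points `f` of
`X(L)` outside `D`: `(∑ deg G a - N - n - 1) h(f) ≤ χ(L) + N1_D(f) + C [L : F]`. Here `N1_D(f)` is
the number of places of `L` at which `f` meets `D` (without multiplicities). -/
theorem result {k₀ : Type u₀} {k F : Type u} [Field k₀] [Field k] [Field F] [CharZero k]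
    [IsAlgClosed k] [Algebra k₀ k] [Algebra k F] [Algebra k₀ F] [IsScalarTower k₀ k F]
    [FunField k F] (s : F) (hs : Transcendental k s) (N n c q : ℕ) (hN : c + n = N)
    (d : Fin c ⊕ Fin q → ℕ) (hd : ∀ a, 1 ≤ d a)
    (G₀ : Fin c ⊕ Fin q → MvPolynomial (Fin (N + 1)) F) (hG₀ : ∀ a, (G₀ a).IsHomogeneous (d a))
    (hG₀s : ∀ a m, IsAlgebraic (IntermediateField.adjoin k₀ {s}) ((G₀ a).coeff m))
    (P : Fin c ⊕ Fin q → MvPolynomial (Fin (N + 1)) k) (hP : GenericForms k₀ d P)
    (G : Fin c ⊕ Fin q → MvPolynomial (Fin (N + 1)) F)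
    (hG : ∀ a, G a = G₀ a + map (algebraMap k F) (P a)) :
    ∃ C : ℤ, ∀ (L : Type w) [Field L] [Algebra k L] [Algebra F L] [IsScalarTower k F L]
      [FiniteDimensional F L] (f : Fin (N + 1) → L), (∃ i, f i ≠ 0) →
      (∀ i, aeval f (G (Sum.inl i)) = 0) → (∀ j, aeval f (G (Sum.inr j)) ≠ 0) →
      (∑ a, (d a : ℤ) - N - n - 1) * htP k f ≤ chi k L +
        ({v : Place k L | ∃ j, Meets v (d (Sum.inr j)) (G (Sum.inr j)) f}.ncard : ℤ) +
        C * Module.finrank F L := by
  have e : Fin c ⊕ Fin (n + 1) ≃ Fin (N + 1) :=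
    finSumFinEquiv.trans (finCongr (by omega))
  obtain ⟨C, hC⟩ := main_bound.{w} hd s hs G₀ hG₀ hG₀s P hP G hG e
  refine ⟨C, fun L _ _ _ _ _ f hf h1 h2 => ?_⟩
  have h := hC L f hf h1 h2
  rw [Fintype.card_fin] at h
  have h3 : (∑ a, (d a : ℤ) - c - 2 * n - 1) = (∑ a, (d a : ℤ) - N - n - 1) := by
    rw [← hN]
    push_cast
    ring
  rw [h3] at h
  exact h

end Pool.Agent.Results.MP_4dacf8_ag.VeryGeneralPairs
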